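import Mathlib

namespace Pool.Agent.Results.MP_ecbd44_co.Hankel

open Finset Polynomial

section general

variable {R : Type} [CommRing R]

/-- the twisted derivative. -/
noncomputable def D (w : R[X]) : R[X] →+ R[X] where
  toFun P := derivative P + w * P
  map_zero' := by simp
  map_add' P Q := by simp only [map_add]; ring

theorem D_apply (w P : R[X]) : D w P = derivative P + w * P := rfl

theorem leib (w P Q : R[X]) (j : ℕ) : (D w)^[j] (P * Q) =
    ∑ p ∈ antidiagonal j, (j.choose p.1 : R[X]) * (derivative^[p.1] P * (D w)^[p.2] Q) := by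
  induction j with
  | zero => simp
  | succ j ih =>
    rw [Function.iterate_succ_apply', ih, map_sum, Finset.sum_antidiagonal_choose_succ_mul
      (fun a b => derivative^[a] P * (D w)^[b] Q), ← Finset.sum_add_distrib]
    refine Finset.sum_congr rfl fun p hp => ?_
    rw [← Nat.choose_symm_of_eq_add (Finset.HasAntidiagonal.mem_antidiagonal.mp hp).symm]
    simp only [Function.iterate_succ_apply', D_apply, derivative_mul, derivative_natCast]
    ring

theorem shift (a : R) (u : R[X]) (j : ℕ) : (D (C a + u))^[j] 1 =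
    ∑ p ∈ antidiagonal j, (j.choose p.2 : R[X]) * (C a ^ p.1 * (D u)^[p.2] 1) := by
  have : ∀ j, (D (C a + u))^[j] 1 =
      ∑ p ∈ antidiagonal j, (j.choose p.1 : R[X]) * (C a ^ p.1 * (D u)^[p.2] 1) := by
    intro j
    induction j with
    | zero => simp
    | succ j ih =>
      rw [Function.iterate_succ_apply', ih, map_sum, Finset.sum_antidiagonal_choose_succ_mul
        (fun a' b => C a ^ a' * (D u)^[b] 1), ← Finset.sum_add_distrib]
      refine Finset.sum_congr rfl fun p hp => ?_
      rw [← Nat.choose_symm_of_eq_add (Finset.HasAntidiagonal.mem_antidiagonal.mp hp).symm]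
      simp only [Function.iterate_succ_apply', D_apply, derivative_mul, derivative_natCast,
        ← C_pow, derivative_C]
      rw [pow_succ, C_mul]
      ring
  rw [this]
  refine Finset.sum_congr rfl fun p hp => ?_
  rw [← Nat.choose_symm_of_eq_add (Finset.HasAntidiagonal.mem_antidiagonal.mp hp).symm]

theorem coeff_zero_iter (w P : R[X]) (j : ℕ) : ((D w)^[j] P).coeff 0 =
    ∑ k ∈ range (j + 1), P.coeff k * k.factorial *
      (j.choose k * ((D w)^[j - k] 1).coeff 0) := by
  conv_lhs => rw [← mul_one P, leib, Finset.Nat.sum_antidiagonal_eq_sum_range_succ_mk]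
  rw [finsetSum_coeff]
  refine Finset.sum_congr rfl fun k _ => ?_
  rw [mul_coeff_zero, mul_coeff_zero, coeff_iterate_derivative, coeff_natCast_ite]
  simp [Nat.descFactorial_self]
  ring

theorem D_map {S : Type} [CommRing S] (f : R →+* S) (u : R[X]) (l : ℕ) :
    (D (u.map f))^[l] 1 = ((D u)^[l] 1).map f := by
  induction l with
  | zero => simp
  | succ l ih =>
    rw [Function.iterate_succ_apply', Function.iterate_succ_apply', ih]
    simp [D_apply, derivative_map]

theorem sum_fin {n j : ℕ} (hj : j < n) (f : ℕ → R) (g : ℕ → R) :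
    ∑ k ∈ range (j + 1), f k * (j.choose k * g k) = ∑ k : Fin n, f k * (j.choose k * g k) := by
  rw [Fin.sum_univ_eq_sum_range (fun k => f k * (j.choose k * g k)) n]
  refine Finset.sum_subset (Finset.range_subset_range.mpr hj) fun k _ hk => ?_
  rw [Nat.choose_eq_zero_of_lt (by simpa using hk)]; simp

theorem det_tri {n : ℕ} (g : Fin n → Fin n → R) (hg : ∀ i, g i i = 1) :
    (Matrix.of fun i k : Fin n => (i.val.choose k.val : R) * g i k).det = 1 := by
  rw [Matrix.det_of_isLowerTriangular]
  · simp [hg]
  · intro i j hij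
    have : i.val < j.val := hij
    simp [Nat.choose_eq_zero_of_lt this]

end general

theorem result (d : ℕ) (hd : 2 ≤ d) (H : ℕ → ℤ[X]) (h0 : ∀ n < d, H n = X ^ n)
    (h1 : ∀ n, d ≤ n → H n = X * H (n - 1) + ((n - 1).descFactorial (d - 1) : ℤ[X]) * H (n - d))
    (n : ℕ) : ∃ z : ℤ, (Matrix.of fun i j : Fin n => H (i + j)).det = C z ∧
      (∏ i ∈ range n, (i.factorial : ℤ)) ∣ z := by
  let w : ℤ[X][X] := C X + X ^ (d - 1)
  have hH : ∀ m, H m = ((D w)^[m] 1).coeff 0 := by
    intro m
    induction m using Nat.strong_induction_on with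
    | _ m ih =>
      rcases m with _ | m
      · rw [h0 0 (by omega)]; simp
      have e1 : D w 1 = w := by simp [D_apply]
      rw [Function.iterate_succ_apply, e1, coeff_zero_iter]
      have e2 : ∀ k, w.coeff k = (if k = 0 then X else 0) + if k = d - 1 then 1 else 0 := by
        intro k; simp only [w, coeff_add, coeff_C, coeff_X_pow]
      simp only [e2, add_mul, ite_mul, zero_mul, Finset.sum_add_distrib, Finset.sum_ite_eq',
        Finset.mem_range, Nat.zero_lt_succ, if_true]
      rw [← ih _ (by omega), ← ih _ (by omega)]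
      by_cases hm : m + 1 < d
      · rw [if_neg (by omega), h0 _ hm, Nat.sub_zero, h0 m (by omega)]; simp; ring
      · rw [if_pos (by omega), h1 _ (by omega), Nat.descFactorial_eq_factorial_mul_choose,
          show m + 1 - d = m - (d - 1) by omega]
        simp; ring
  let A0 : Matrix (Fin n) (Fin n) ℤ := Matrix.of fun l k => ((D (X ^ (d - 1)))^[l] 1).coeff k
  let Bm : Matrix (Fin n) (Fin n) ℤ[X] :=
    Matrix.of fun i l => (i.val.choose l.val : ℤ[X]) * X ^ (i.val - l.val)
  let L : Matrix (Fin n) (Fin n) ℤ[X] :=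
    Matrix.of fun j k => (j.val.choose k.val : ℤ[X]) * H (j.val - k.val)
  have hA : ∀ i k : Fin n, ((D w)^[i] 1).coeff k = (Bm * A0.map C) i k := by
    intro i k
    rw [shift, ← Finset.Nat.sum_antidiagonal_swap, Finset.Nat.sum_antidiagonal_eq_sum_range_succ_mk,
      finsetSum_coeff, Matrix.mul_apply]
    have e : (X ^ (d - 1) : ℤ[X][X]) = (X ^ (d - 1) : ℤ[X]).map C := by simp
    have := sum_fin (R := ℤ[X]) i.2 (fun _ => 1)
      (fun l => X ^ (i.val - l) * C (((D (X ^ (d - 1) : ℤ[X]))^[l] 1).coeff k))
    simp only [one_mul] at this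
    simp only [Bm, A0, Matrix.of_apply, Matrix.map_apply, mul_assoc]
    rw [← this]
    refine Finset.sum_congr rfl fun l _ => ?_
    rw [Prod.fst_swap, Prod.snd_swap, e, D_map, ← C_pow, ← C_eq_natCast, coeff_C_mul, coeff_C_mul,
      coeff_map]
  have hM : (Matrix.of fun i j : Fin n => H (i + j))
      = Bm * A0.map C * Matrix.diagonal (fun k : Fin n => (k.val.factorial : ℤ[X])) *
        L.transpose := by
    ext1 i j
    rw [Matrix.of_apply, hH, add_comm, Function.iterate_add_apply, coeff_zero_iter,
      sum_fin j.2 (fun k => ((D w)^[i] 1).coeff k * k.factorial), Matrix.mul_apply]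
    refine Finset.sum_congr rfl fun k _ => ?_
    rw [Matrix.mul_diagonal, ← hA, ← hH]
    rfl
  refine ⟨A0.det * ∏ i ∈ range n, (i.factorial : ℤ), ?_, Dvd.intro_left _ rfl⟩
  rw [hM, Matrix.det_mul, Matrix.det_mul, Matrix.det_mul, Matrix.det_transpose,
    det_tri _ (fun i => by simp), det_tri _ (fun i => by simp [h0 0 (by omega)]),
    Matrix.det_diagonal, Fin.prod_univ_eq_prod_range (fun k => (k.factorial : ℤ[X])) n,
    C_mul, RingHom.map_det]
  simp

end Pool.Agent.Results.MP_ecbd44_co.Hankel
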